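import Pool.Agent.Helper51.PP.Spec

/-!
# Part WEYL: Weyl decomposition of an antisymmetric field
-/

set_option autoImplicit false

noncomputable section

namespace Pool.Agent.Helper14.PC.WEYL

open Pool.Agent.Helper51.PP MeasureTheory
open scoped ENNReal

variable {Ω E : Type} [MeasurableSpace Ω] [Fintype E]

/-- the Hilbert space of fields -/
abbrev HF (Ω E : Type) [MeasurableSpace Ω] [Fintype E] (μ : Measure Ω) : Type :=
  PiLp 2 (fun _ : E => Lp ℝ 2 μ)

/-- gradients of bounded functions -/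
def KG (μ : Measure Ω) (T : Ω → E → Ω) : Submodule ℝ (HF Ω E μ) where
  carrier := {v | ∃ ψ : Ω → ℝ, Measurable ψ ∧ (∃ B : ℝ, ∀ ω, |ψ ω| ≤ B) ∧
    ∀ e, (v e : Ω → ℝ) =ᵐ[μ] fun ω => ψ (T ω e) - ψ ω}
  add_mem' := by
    rintro v w ⟨ψ, h1, ⟨B, hB⟩, h2⟩ ⟨φ, h3, ⟨C, hC⟩, h4⟩
    refine ⟨fun ω => ψ ω + φ ω, h1.add h3, ⟨B + C, fun ω => (abs_add_le _ _).trans
      (add_le_add (hB ω) (hC ω))⟩, fun e => ?_⟩
    have h5 : ((v + w) e : Lp ℝ 2 μ) = v e + w e := rfl
    rw [h5]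
    filter_upwards [Lp.coeFn_add (v e) (w e), h2 e, h4 e] with ω a b c
    rw [a, Pi.add_apply, b, c]; ring
  zero_mem' := by
    refine ⟨fun _ => 0, measurable_const, ⟨0, fun _ => by simp⟩, fun e => ?_⟩
    have h5 : ((0 : HF Ω E μ) e : Lp ℝ 2 μ) = 0 := rfl
    rw [h5]
    filter_upwards [Lp.coeFn_zero ℝ 2 μ] with ω a
    rw [a]; simp
  smul_mem' := by
    rintro r v ⟨ψ, h1, ⟨B, hB⟩, h2⟩
    refine ⟨fun ω => r * ψ ω, h1.const_mul r, ⟨|r| * B, fun ω => ?_⟩, fun e => ?_⟩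
    · rw [abs_mul]; exact mul_le_mul_of_nonneg_left (hB ω) (abs_nonneg r)
    · have h5 : ((r • v) e : Lp ℝ 2 μ) = r • v e := rfl
      rw [h5]
      filter_upwards [Lp.coeFn_smul r (v e), h2 e] with ω a b
      rw [a, Pi.smul_apply, b, smul_eq_mul]; ring

/-- the antisymmetry operator -/
def AS {μ : Measure Ω} {T : Ω → E → Ω} {rev : E → E} (h : MPS μ T rev) (e : E)
    (v : HF Ω E μ) : Lp ℝ 2 μ :=
  Lp.compMeasurePreserving (fun ω => T ω e) (h.mp e) (v (rev e)) + v e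

lemma continuous_AS {μ : Measure Ω} {T : Ω → E → Ω} {rev : E → E} (h : MPS μ T rev) (e : E) :
    Continuous (AS h e) := by
  haveI : Fact ((1 : ℝ≥0∞) ≤ 2) := ⟨by norm_num⟩
  unfold AS
  have h1 : Continuous fun v : HF Ω E μ => v (rev e) := PiLp.continuous_apply 2 _ (rev e)
  have h2 : Continuous fun v : HF Ω E μ => v e := PiLp.continuous_apply 2 _ e
  exact ((Lp.isometry_compMeasurePreserving (h.mp e)).continuous.comp h1).add h2

lemma AS_eq {μ : Measure Ω} {T : Ω → E → Ω} {rev : E → E} (h : MPS μ T rev) (e : E)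
    (v : HF Ω E μ) : AS h e v = 0 ↔
      ∀ᵐ ω ∂μ, (v (rev e) : Ω → ℝ) (T ω e) = -(v e : Ω → ℝ) ω := by
  unfold AS
  rw [Lp.ext_iff]
  constructor
  · intro h1
    filter_upwards [h1, Lp.coeFn_add (Lp.compMeasurePreserving (fun ω => T ω e) (h.mp e)
      (v (rev e))) (v e), Lp.coeFn_compMeasurePreserving (v (rev e)) (h.mp e),
      Lp.coeFn_zero ℝ 2 μ] with ω a b c d
    rw [b, Pi.add_apply, c, d] at a
    simp only [Function.comp_apply, Pi.zero_apply] at a
    linarith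
  · intro h1
    filter_upwards [h1, Lp.coeFn_add (Lp.compMeasurePreserving (fun ω => T ω e) (h.mp e)
      (v (rev e))) (v e), Lp.coeFn_compMeasurePreserving (v (rev e)) (h.mp e),
      Lp.coeFn_zero ℝ 2 μ] with ω a b c d
    rw [b, Pi.add_apply, c, d]
    simp only [Function.comp_apply, Pi.zero_apply]
    linarith

theorem main : S_WEYL := by
  intro Ω E _ _ _ μ _ T rev h c hcm hc2 hanti
  classical
  haveI : Fact ((1 : ℝ≥0∞) ≤ 2) := ⟨by norm_num⟩
  have hcE : (0 : ℝ) < Fintype.card E := by exact_mod_cast Fintype.card_pos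
  set cL : HF Ω E μ := WithLp.toLp 2 (fun e => (hc2 e).toLp (fun ω => c ω e)) with hcL
  have hcLe : ∀ e, (cL e : Ω → ℝ) =ᵐ[μ] fun ω => c ω e := fun e => (hc2 e).coeFn_toLp
  haveI : CompleteSpace (KG μ T).topologicalClosure :=
    ((KG μ T).isClosed_topologicalClosure).completeSpace_coe
  obtain ⟨g, hg, mL, hmL, hdec⟩ :=
    (KG μ T).topologicalClosure.exists_add_mem_mem_orthogonal cL
  -- antisymmetry
  have hK : ∀ e, ∀ v ∈ KG μ T, AS h e v = 0 := by
    rintro e v ⟨ψ, h1, -, h2⟩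
    rw [AS_eq]
    have h3 := (h.mp e).quasiMeasurePreserving.ae_eq_comp (h2 (rev e))
    filter_upwards [h3, h2 e, h.back e] with ω a b d
    simp only [Function.comp_apply] at a
    rw [a, b, d]; ring
  have hgA : ∀ e, AS h e g = 0 := by
    intro e
    have h1 : IsClosed {v : HF Ω E μ | AS h e v = 0} :=
      isClosed_eq (continuous_AS h e) continuous_const
    have h2 : closure ((KG μ T : Submodule ℝ (HF Ω E μ)) : Set (HF Ω E μ)) ⊆
        {v : HF Ω E μ | AS h e v = 0} := closure_minimal (fun v hv => hK e v hv) h1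
    exact h2 (by rw [← Submodule.topologicalClosure_coe]; exact hg)
  have hcA : ∀ e, AS h e cL = 0 := by
    intro e
    rw [AS_eq]
    have h3 := (h.mp e).quasiMeasurePreserving.ae_eq_comp (hcLe (rev e))
    filter_upwards [h3, hcLe e, hanti e] with ω a b d
    simp only [Function.comp_apply] at a
    rw [a, b, d]
  have hadd : ∀ e (v w : HF Ω E μ), AS h e (v + w) = AS h e v + AS h e w := by
    intro e v w
    unfold AS
    have h5 : ((v + w) e : Lp ℝ 2 μ) = v e + w e := rfl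
    have h6 : ((v + w) (rev e) : Lp ℝ 2 μ) = v (rev e) + w (rev e) := rfl
    rw [h5, h6, map_add]
    abel
  have hmA : ∀ e, ∀ᵐ ω ∂μ, (mL (rev e) : Ω → ℝ) (T ω e) = -(mL e : Ω → ℝ) ω := by
    intro e
    rw [← AS_eq h e mL]
    have := hcA e
    rw [hdec, hadd, hgA, zero_add] at this
    exact this
  -- orthogonality
  have horth : ∀ v ∈ KG μ T, ∑ e, ∫ ω, (mL e : Ω → ℝ) ω * (v e : Ω → ℝ) ω ∂μ = 0 := by
    intro v hv
    have h1 : inner ℝ v mL = 0 :=
      (Submodule.mem_orthogonal _ _).1 hmL v ((KG μ T).le_topologicalClosure hv)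
    rw [PiLp.inner_apply] at h1
    rw [← h1]
    refine Finset.sum_congr rfl fun e _ => ?_
    rw [L2.inner_def]
    rfl
  set m0 : Ω → E → ℝ := fun ω e => (mL e : Ω → ℝ) ω with hm0
  have hm0m : ∀ e, Measurable fun ω => m0 ω e := fun e => (Lp.stronglyMeasurable (mL e)).measurable
  have hm02 : ∀ e, MemLp (fun ω => m0 ω e) 2 μ := fun e => Lp.memLp (mL e)
  have hm0i : ∀ e, Integrable (fun ω => m0 ω e) μ := fun e =>
    (hm02 e).integrable (by norm_num)
  -- the sum vanishes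
  have hsum : (fun ω => ∑ e, m0 ω e) =ᵐ[μ] 0 := by
    refine Integrable.ae_eq_zero_of_forall_setIntegral_eq_zero
      (integrable_finset_sum _ fun e _ => hm0i e) fun S hS _ => ?_
    set ψ : Ω → ℝ := S.indicator 1 with hψ
    have hψm : Measurable ψ := measurable_one.indicator hS
    have hψb : ∀ ω, |ψ ω| ≤ 1 := by
      intro ω
      by_cases hω : ω ∈ S <;> simp [hψ, hω]
    have hgr : ∀ e, MemLp (fun ω => ψ (T ω e) - ψ ω) 2 μ := by
      intro e
      refine MemLp.of_bound (((hψm.comp (h.mp e).measurable).sub hψm).aestronglyMeasurable) 2 ?_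
      refine Filter.Eventually.of_forall fun ω => ?_
      rw [Real.norm_eq_abs]
      have h1 := abs_sub (ψ (T ω e)) (ψ ω)
      linarith [hψb ω, hψb (T ω e)]
    set v : HF Ω E μ := WithLp.toLp 2 (fun e => (hgr e).toLp (fun ω => ψ (T ω e) - ψ ω)) with hv
    have hve : ∀ e, (v e : Ω → ℝ) =ᵐ[μ] fun ω => ψ (T ω e) - ψ ω := fun e => (hgr e).coeFn_toLp
    have hvK : v ∈ KG μ T := ⟨ψ, hψm, ⟨1, hψb⟩, hve⟩
    have h1 := horth v hvK
    have hbi : ∀ (e : E) (φ : Ω → ℝ), Measurable φ → (∀ ω, |φ ω| ≤ 1) →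
        Integrable (fun ω => m0 ω e * φ ω) μ := by
      intro e φ hφ hb
      refine (hm0i e).mul_bdd (c := 1) hφ.aestronglyMeasurable ?_
      exact Filter.Eventually.of_forall fun ω => by rw [Real.norm_eq_abs]; exact hb ω
    have h2 : ∀ e, ∫ ω, m0 ω e * (v e : Ω → ℝ) ω ∂μ
        = ∫ ω, m0 ω e * ψ (T ω e) ∂μ - ∫ ω, m0 ω e * ψ ω ∂μ := by
      intro e
      rw [← integral_sub (hbi e (fun ω => ψ (T ω e)) (hψm.comp (h.mp e).measurable)
        (fun ω => hψb _)) (hbi e ψ hψm hψb)]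
      refine integral_congr_ae ?_
      filter_upwards [hve e] with ω a
      rw [a]; ring
    have h3 : ∀ e, ∫ ω, m0 ω e * ψ (T ω e) ∂μ = -∫ ω, m0 ω (rev e) * ψ ω ∂μ := by
      intro e
      have hmeas : Measurable fun ω => m0 ω e * ψ (T ω e) :=
        (hm0m e).mul (hψm.comp (h.mp e).measurable)
      have h4 : ∫ ω, m0 ω e * ψ (T ω e) ∂μ
          = ∫ ω, m0 (T ω (rev e)) e * ψ (T (T ω (rev e)) e) ∂μ := by
        conv_lhs => rw [← (h.mp (rev e)).map_eq]
        rw [integral_map (h.mp (rev e)).measurable.aemeasurable hmeas.aestronglyMeasurable]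
      rw [h4, ← integral_neg]
      refine integral_congr_ae ?_
      have h5 := hmA (rev e)
      have h6 := h.back (rev e)
      rw [h.inv] at h5 h6
      filter_upwards [h5, h6] with ω a b
      rw [b]
      show (mL e : Ω → ℝ) (T ω (rev e)) * ψ ω = _
      rw [a]; ring
    have h7 : ∑ e, ∫ ω, m0 ω (rev e) * ψ ω ∂μ = ∑ e, ∫ ω, m0 ω e * ψ ω ∂μ :=
      Equiv.sum_comp (⟨rev, rev, h.inv, h.inv⟩ : E ≃ E) fun e => ∫ ω, m0 ω e * ψ ω ∂μ
    have h8 : ∑ e, ∫ ω, m0 ω e * ψ ω ∂μ = 0 := by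
      have h9 : ∑ e, ∫ ω, m0 ω e * (v e : Ω → ℝ) ω ∂μ
          = -(∑ e, ∫ ω, m0 ω e * ψ ω ∂μ) - ∑ e, ∫ ω, m0 ω e * ψ ω ∂μ := by
        conv_rhs => enter [1]; rw [← h7]
        rw [← Finset.sum_neg_distrib, ← Finset.sum_sub_distrib]
        refine Finset.sum_congr rfl fun e _ => ?_
        rw [h2, h3]
      have h10 : ∑ e, ∫ ω, m0 ω e * (v e : Ω → ℝ) ω ∂μ = 0 := h1
      linarith
    rw [← integral_finset_sum _ fun e _ => hbi e ψ hψm hψb] at h8
    rw [← h8, ← integral_indicator hS]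
    refine integral_congr_ae (Filter.Eventually.of_forall fun ω => ?_)
    by_cases hω : ω ∈ S <;> simp [hψ, hω]
  set m : Ω → E → ℝ := fun ω e => if ∑ e', m0 ω e' = 0 then m0 ω e else 0 with hm
  have hSm : MeasurableSet {ω | ∑ e', m0 ω e' = 0} :=
    measurableSet_eq_fun (Finset.measurable_sum _ fun e _ => hm0m e) measurable_const
  have hmm : ∀ e, Measurable fun ω => m ω e := fun e => (hm0m e).ite hSm measurable_const
  have hmae : ∀ e, (fun ω => m ω e) =ᵐ[μ] fun ω => m0 ω e := by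
    intro e
    filter_upwards [hsum] with ω a
    have a' : ∑ e', m0 ω e' = 0 := a
    simp only [hm, a', if_true]
  refine ⟨m, hmm, fun e => (memLp_congr_ae (hmae e)).2 (hm02 e), fun ω => ?_, fun ε hε => ?_⟩
  · by_cases hω : ∑ e', m0 ω e' = 0
    · simp only [hm, hω, if_true]
    · simp only [hm, hω, if_false, Finset.sum_const_zero]
  · have hg' : g ∈ closure ((KG μ T : Submodule ℝ (HF Ω E μ)) : Set (HF Ω E μ)) := by
      rw [← Submodule.topologicalClosure_coe]; exact hg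
    obtain ⟨v, hv, hdist⟩ := Metric.mem_closure_iff.1 hg' (√ε) (Real.sqrt_pos.2 hε)
    obtain ⟨ψ, hψm, ⟨B, hB⟩, hψ⟩ := hv
    refine ⟨ψ, hψm, ⟨B, hB⟩, ?_⟩
    have hae : ∀ᵐ ω ∂μ, ∀ e, c ω e - m ω e - (ψ (T ω e) - ψ ω) = ((g - v) e : Ω → ℝ) ω := by
      rw [ae_all_iff]
      intro e
      have h5 : ((g - v) e : Lp ℝ 2 μ) = g e - v e := rfl
      have h6 : cL e = g e + mL e := by rw [hdec]; rfl
      have h7 := Lp.coeFn_add (g e) (mL e)
      rw [← h6] at h7
      rw [h5]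
      filter_upwards [h7, Lp.coeFn_sub (g e) (v e), hψ e, hcLe e, hmae e] with ω a b d f k
      rw [b, Pi.sub_apply, d]
      have : c ω e = (g e : Ω → ℝ) ω + (mL e : Ω → ℝ) ω := by rw [← f, a, Pi.add_apply]
      have k' : m ω e = (mL e : Ω → ℝ) ω := k
      rw [this, k']; ring
    have h1 : ∫ ω, Vf (fun ω e => c ω e - m ω e - grad T ψ ω e) ω ∂μ
        = (Fintype.card E : ℝ)⁻¹ * ‖g - v‖ ^ 2 := by
      have h2 : ∫ ω, Vf (fun ω e => c ω e - m ω e - grad T ψ ω e) ω ∂μ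
          = ∫ ω, (Fintype.card E : ℝ)⁻¹ * ∑ e, ((g - v) e : Ω → ℝ) ω ^ 2 ∂μ := by
        refine integral_congr_ae ?_
        filter_upwards [hae] with ω a
        simp only [Vf, grad]
        congr 1
        exact Finset.sum_congr rfl fun e _ => by rw [a e]
      rw [h2, integral_const_mul, integral_finset_sum _ fun e _ =>
        (Lp.memLp ((g - v) e)).integrable_sq, PiLp.norm_sq_eq_of_L2]
      congr 1
      refine Finset.sum_congr rfl fun e _ => ?_
      rw [← real_inner_self_eq_norm_sq, L2.inner_def]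
      refine integral_congr_ae (Filter.Eventually.of_forall fun ω => ?_)
      simp only [real_inner_self_eq_norm_sq, Real.norm_eq_abs, sq_abs]
    rw [h1]
    have h2 : ‖g - v‖ ^ 2 ≤ ε := by
      rw [dist_eq_norm] at hdist
      calc ‖g - v‖ ^ 2 ≤ (√ε) ^ 2 := pow_le_pow_left₀ (norm_nonneg _) hdist.le 2
        _ = ε := Real.sq_sqrt hε.le
    have h3 : (Fintype.card E : ℝ)⁻¹ ≤ 1 := by
      apply inv_le_one_of_one_le₀
      exact_mod_cast Fintype.card_pos
    calc (Fintype.card E : ℝ)⁻¹ * ‖g - v‖ ^ 2 ≤ 1 * ε :=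
          mul_le_mul h3 h2 (sq_nonneg _) zero_le_one
      _ = ε := one_mul ε

end Pool.Agent.Helper14.PC.WEYL

end
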